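import Pool.Agent.Lib.MP_be1941_al.Defs3

/-!
# MP_be1941_al, block CO: Sylow basics, coordinates, type (C), the character `β`, the step lemma

Paper: /team-store/MP_be1941_al_RHO2.md, sections (3e), (3f), 4, 6. Every Spec below is a module;
the complete proof is in its docstring. File `CO/Xxx.lean`, `import
Pool.Agent.Lib.MP_be1941_al.CO.SpecC`, namespace `Pool.Agent.Lib.MPbe1941.CO`,
`theorem specXXX (hYYY : SpecYYY) .. : SpecXXX`; own lemmas in the namespace
`Pool.Agent.Lib.MPbe1941.CO.XXXM`.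
-/

set_option autoImplicit false

namespace Pool.Agent.Lib.MPbe1941.CO

open Pool.Agent.Lib.MPbe1941

/-- **SYL** [120 lines]. Sylow theory for `SylIn r S R` (`R` is a Sylow `r`-subgroup of the
subgroup `S` of the finite group `H`).
PROOF. `SylIn r S R` iff `R.subgroupOf S` is (the coercion of) a `Sylow r S`:
`IsPGroup.toSylow`/`Sylow.ofCard`, index of a Sylow subgroup is prime to `r`
(`Sylow.not_dvd_index`), conversely an `r`-subgroup of index prime to `r` is a Sylow subgroup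
(`IsPGroup.toSylow`). (a) existence, (b) every `r`-subgroup of `S` is in one
(`IsPGroup.exists_le_sylow`), (c) conjugacy (`MulAction.IsPretransitive S (Sylow r S)`),
(d) `R ≤ T ≤ S`: `R.relIndex T` divides `R.relIndex S` (`Subgroup.relIndex_dvd..`/
`relIndex_mul_relIndex`), (e) multiplicativity of the relative index, (f) conjugation,
(g) if `r` does not divide `T.index` then a Sylow `r`-subgroup of `T` is one of `H` by (e);
(h) if `r` divides `|H|` a Sylow subgroup is non-trivial; (i) `R ⊓ N` for `N` normal: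
`|N : R ⊓ N| = |RN : R|` divides `|H : R|`. -/
def SpecSYL : Prop :=
  ∀ (H : Type) [Group H] [Finite H] (r : ℕ), r.Prime →
    (∀ S : Subgroup H, ∃ R, SylIn r S R) ∧
    (∀ S Q : Subgroup H, Q ≤ S → IsPGroup r Q → ∃ R, SylIn r S R ∧ Q ≤ R) ∧
    (∀ S R R' : Subgroup H, SylIn r S R → SylIn r S R' →
      ∃ g ∈ S, ∀ x, x ∈ R' ↔ g⁻¹ * x * g ∈ R) ∧
    (∀ S T R : Subgroup H, SylIn r S R → R ≤ T → T ≤ S → SylIn r T R) ∧
    (∀ S T R : Subgroup H, T ≤ S → ¬ r ∣ T.relIndex S → SylIn r T R → SylIn r S R) ∧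
    (∀ S R R' : Subgroup H, SylIn r S R → ∀ g : H, g ∈ S →
      (∀ x, x ∈ R' ↔ g⁻¹ * x * g ∈ R) → SylIn r S R') ∧
    (∀ T : Subgroup H, (¬ ∃ R, SylIn r ⊤ R ∧ R ≤ T) → r ∣ T.index) ∧
    (∀ R : Subgroup H, SylIn r ⊤ R → r ∣ Nat.card H → R ≠ ⊥) ∧
    (∀ N R : Subgroup H, N.Normal → SylIn r ⊤ R → SylIn r N (R ⊓ N))

/-- **ORN** [150 lines]. The group `Or` generated by the Sylow `r`-subgroups, when these fix all
atoms. (1) `Or`, `D` are normal, (2) `Or` contains the Sylow subgroups, (3) fixes all atoms,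
(4) `I_r` is `H`-invariant, (5),(6) the Sylow `r`-subgroups of `H` are those of the stabiliser of an
atom, (7) every Sylow `r`-subgroup acts non-trivially on the atoms of `I_r`, (8) two Sylow
`r`-subgroups of `H` contained in `T` are conjugate by an element of `Or ∩ T`.
PROOF. (1) conjugates of Sylow subgroups are Sylow subgroups (SYL (f)); derived subgroup of a
normal subgroup is normal. (3) a Sylow subgroup moves no atom (`¬ TypeA`), closure. (4) `h' ∈ Or`
moves `x ∈ at' u` then `h h' h⁻¹ ∈ Or` moves `h x ∈ at' (h u)`. (5) `R ≤ Or ≤ stabilizer u`, SYL (d).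
(6) `R` Sylow in `stabilizer u`; the stabiliser contains a Sylow subgroup of `H`, so its index is
prime to `r`; SYL (e). (8) `R, R' ≤ Or ⊓ T` are Sylow in `Or ⊓ T` (SYL (d)), SYL (c).
(7) Some generator of `Or`, hence some Sylow `R₁`, acts non-trivially on `u` (if all Sylow subgroups
act trivially on `at' u`, so does `Or`); `R = g R₁ g⁻¹` with `g ∈ Or` by (8) for `T = ⊤`, `g u = u`. -/
def SpecORN : Prop :=
  ∀ (S : Sys) (r : ℕ), Large r → ¬ TypeA S.H S.A r →
    (Or S.H r).Normal ∧ (S.D r).Normal ∧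
    (∀ R : Subgroup S.H, SylIn r ⊤ R → R ≤ Or S.H r) ∧
    (∀ h ∈ Or S.H r, ∀ u : S.A, h • u = u) ∧
    (∀ (h : S.H) (u : S.A), S.Act r u → S.Act r (h • u)) ∧
    (∀ (u : S.A) (R : Subgroup S.H), SylIn r ⊤ R ↔ SylIn r (MulAction.stabilizer S.H u) R) ∧
    (∀ (u : S.A) (R : Subgroup S.H), SylIn r ⊤ R → S.Act r u → ∃ ρ ∈ R, ¬ S.Tr ρ u) ∧
    (∀ T R R' : Subgroup S.H, SylIn r ⊤ R → SylIn r ⊤ R' → R ≤ T → R' ≤ T →
      ∃ g ∈ Or S.H r, g ∈ T ∧ ∀ x, x ∈ R' ↔ g⁻¹ * x * g ∈ R)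

/-- **COB** [80 lines]. Cocycle identities of the coordinates on the stabiliser of `u`.
PROOF. `φ ((g h) x) = φ (g (h x))` for all `x` with `φ x = y`, `y ∈ F` arbitrary (`surj`):
`a (g h) s_(gh) y = a g s_g (a h) s_g (s_h y)`; `y = 1` gives the first identity, dividing gives the
second. `g = 1`: `y = a 1 s_1 y`. (3) `g x = x` for all `x ∈ at' u` iff `a g s_g y = y` for all `y`
(use `inj` for `g x - x ∈ at' u`); `y = 1`. (4) the same for `g x = h x`. -/
def SpecCOB : Prop :=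
  ∀ (S : Sys) (u : S.A) (F : Type) [Field F] (c : Coord S.H S.at' u F),
    (∀ g h : S.H, g • u = u → h • u = u →
      c.a (g * h) = c.a g * c.s g (c.a h) ∧ ∀ y, c.s (g * h) y = c.s g (c.s h y)) ∧
    (c.a 1 = 1 ∧ ∀ y, c.s 1 y = y) ∧
    (∀ g : S.H, g • u = u → (S.Tr g u ↔ c.a g = 1 ∧ ∀ y, c.s g y = y)) ∧
    (∀ g h : S.H, g • u = u → h • u = u →
      (S.Same g h u ↔ c.a g = c.a h ∧ ∀ y, c.s g y = c.s h y))

/-- **PSI** [80 lines] (pure). A finite field `F` has an additive character `ψ` which is invariant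
under all automorphisms of `F` and such that every additive character is `ψ(c ·)` for one `c`.
PROOF. `p` the characteristic, `ψ(y) = ζ^(Tr y)`, `Tr : F → ZMod p` the absolute trace, `ζ` a
primitive `p`-th root of unity: `AddChar.zmodChar`/`AddChar.primitiveZModChar` composed with
`Algebra.trace (ZMod p) F`. `Tr (s y) = Tr y` for a ring automorphism (it is `ZMod p`-linear:
`Algebra.trace_eq_of_algEquiv`; `RingHom.toZModAlgEquiv`-like lemmas). The trace form is
nondegenerate (`traceForm_nondegenerate`), so `ψ(c ·)` is trivial only for `c = 0`; the map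
`c ↦ ψ(c ·)` is an injective homomorphism from `F` to the character group, which has `|F|` elements
(`AddChar.card_eq`), so it is bijective. -/
def SpecPSI : Prop :=
  ∀ (F : Type) [Field F] [Finite F], ∃ ψ : AddChar F ℂ,
    (∀ (s : F ≃+* F) (y : F), ψ (s y) = ψ y) ∧
    (∀ χ : AddChar F ℂ, ∃ c : F, ∀ y, χ y = ψ (c * y)) ∧
    ∀ c : F, (∀ y, ψ (c * y) = 1) → c = 0

/-- **DUA** [120 lines]. Characters of an atom in coordinates: `Ψ y x = ψ (y φ(x))`, `ψ` from PSI.
(1) trivial on the other atoms, (2) injective, (3) every character of `W` agrees on `at' u` with some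
`Ψ y`, (4) `g` in the stabiliser fixes `Ψ y` on `at' u` iff `s_g y = a_g y`.
PROOF. (1) `off`. (2) `Ψ y = Ψ y'` on `at' u`: `ψ ((y - y') z) = 1` for all `z` by `surj`.
(3) `w` restricted to `at' u` transported by `φ : at' u ≃ F` (inj, surj) is an additive
character of `F`. (4) `ψ(y a_g s_g(z)) = ψ(s_g⁻¹(y a_g) z)`, so `g` fixes `Ψ y` iff
`ψ((s_g⁻¹(y a_g) - y) z) = 1` for all `z` iff `y a_g = s_g y`. -/
def SpecDUA : Prop :=
  ∀ (S : Sys) (u : S.A) (F : Type) [Field F] [Finite F] (c : Coord S.H S.at' u F),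
    ∃ Ψ : F → AddChar S.W ℂ,
      (∀ y v, v ≠ u → ∀ x ∈ S.at' v, Ψ y x = 1) ∧
      (∀ y y', (∀ x ∈ S.at' u, Ψ y x = Ψ y' x) → y = y') ∧
      (∀ w : AddChar S.W ℂ, ∃ y, ∀ x ∈ S.at' u, w x = Ψ y x) ∧
      (∀ x, Ψ 0 x = 1) ∧
      ∀ (g : S.H) (y : F), g • u = u →
        ((∀ x ∈ S.at' u, Ψ y (g • x) = Ψ y x) ↔ c.s g y = c.a g * y)

/-- **FFA** [200 lines] (pure). Facts on an automorphism `σ` of a finite field `F`, `Fix` its fixed
field. (1) automorphisms commute; (2) every subgroup of the automorphism group is cyclic;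
(3) `|F| = |Fix| ^ (order of σ)`; (4) if `σ (σ x / x) = σ x / x` then `(σ x / x)^(order σ) = 1`;
(5) if `N = {σ x / x}` meets `Fix` only in `1` then every `y ≠ 0` is `σ x / x * z`, `z ∈ Fix`.
PROOF. The group `F ≃+* F` is the Galois group of `F` over its prime field (every ring
automorphism fixes `ZMod p`), cyclic generated by Frobenius (Mathlib: `FiniteField.
frobeniusAlgEquivOfAlgebraic`, `IsCyclic (K ≃ₐ[ZMod p] K)` / `Gal(F/ZMod p)`); (3) Artin:
`[F : Fix] = |⟨σ⟩|` (`IntermediateField.finrank_fixedField_eq_card` /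
`FixedPoints.finrank_eq_card`), `Module.card_eq_pow_finrank`. (4) put `y = σ x / x`, `σ y = y`:
`σ^n x = y^n x`, `n` the order. (5) the homomorphism `x ↦ σ x / x` on `Fˣ` has kernel `Fix^*`, so
`|N| |Fix^*| = |F^*|`, and `N × Fix^* → F^*` is injective, hence bijective. -/
def SpecFFA : Prop :=
  ∀ (F : Type) [Field F] [Finite F],
    (∀ s t : F ≃+* F, ∀ y, s (t y) = t (s y)) ∧
    (∀ K : Subgroup (F ≃+* F), IsCyclic K) ∧
    ∀ σ : F ≃+* F,
      Nat.card F = Nat.card {y : F // σ y = y} ^ orderOf σ ∧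
      (∀ x, x ≠ 0 → σ (σ x / x) = σ x / x → (σ x / x) ^ orderOf σ = 1) ∧
      ((∀ x, x ≠ 0 → σ (σ x / x) = σ x / x → σ x = x) →
        ∀ y, y ≠ 0 → ∃ x z, x ≠ 0 ∧ z ≠ 0 ∧ σ z = z ∧ y = σ x / x * z)

/-- **FIX** [150 lines]. Let `R₀` be a Sylow `r`-subgroup of the stabiliser `H_u`, `a = 1` on `R₀`.
(1) every Sylow `r`-subgroup `R` of `H_u` is `g R₀ g⁻¹` with `g ∈ H_u`, `s_g = 1`;
(2) no element `g ∈ H_u` with `s_g = 1` has `a g ≠ 1`, `(a g)^r = 1`.
PROOF. (1) Let `O` be the subgroup of `H_u` generated by all its Sylow `r`-subgroups. By SYL (c) in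
`O` (all of them are Sylow in `O`), `R = g R₀ g⁻¹`, `g ∈ O`. `s` is a homomorphism on `H_u` (COB) to
an abelian group (FFA), so `s(R') = s(R₀)` for every Sylow `R'` and `s(O) = s(R₀)`: choose `ρ ∈ R₀`
with `s_ρ = s_g` and replace `g` by `g ρ⁻¹`. (2) The set `{g ∈ H_u : s_g = 1, a g^(r^n) = 1}`: let
`g` be a counterexample, `m` the order of `g` = `r^e m'`, `r ∤ m'`; `g' = g^(m')` is an `r`-element,
`s_g' = 1`, `a g' = (a g)^(m') ≠ 1` (`a` is multiplicative on `ker s`). `g'` lies in a Sylow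
`r`-subgroup `x R₀ x⁻¹` of `H_u` (SYL (b),(c)); `x⁻¹ g' x ∈ R₀` has `a = 1`, `s = s_g' = 1`, so it
acts trivially on the atom (COB (3)), so does `g'`, `a g' = 1`. Contradiction. -/
def SpecFIX : Prop :=
  ∀ (S : Sys) (u : S.A) (F : Type) [Field F] [Finite F] (c : Coord S.H S.at' u F) (r : ℕ),
    Large r → ∀ R₀ : Subgroup S.H, SylIn r (MulAction.stabilizer S.H u) R₀ →
      (∀ h ∈ R₀, c.a h = 1) →
      (∀ R : Subgroup S.H, SylIn r (MulAction.stabilizer S.H u) R →
        ∃ g : S.H, g • u = u ∧ (∀ y, c.s g y = y) ∧ ∀ x, x ∈ R ↔ g⁻¹ * x * g ∈ R₀) ∧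
      ∀ g : S.H, g • u = u → (∀ y, c.s g y = y) → c.a g ^ r = 1 → c.a g = 1

/-- **MOV** [150 lines]. Movability in coordinates. (1) If `T = {a g : s_g = 1}` contains an element
of order `r` then `r` is movable and EVERY `Ψ y`, `y ≠ 0`, is moved by every Sylow `r`-subgroup of
the stabiliser. (2) If `R₀` is as in FIX and `Ψ y`, `y ≠ 0`, is fixed by a Sylow `r`-subgroup then
`y = a g * z` with `s_g = 1` and `z` fixed by `s(R₀)`. (3) So if `r` is not movable then every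
`y ≠ 0` is of this form.
PROOF. (1) Let `g ∈ H_u`, `s_g = 1`, `a g` of order `r`; as in FIX (2) we may take `g` an
`r`-element (replace it by a power prime to `r`; `a g` still `≠ 1`). Let `R` be any Sylow
`r`-subgroup of `H_u`; `g` is conjugate to an element `g'` of `R`, `g' = x g x⁻¹`: `s_g' = 1`,
`a g' = s_x (a g) ≠ 1` (COB). If `w = Ψ y` on the atom is fixed by `g'` then `y = s_g' y = a g' y`
(DUA (4)), `y = 0`. (2) Let `R = g R₀ g⁻¹` with `s_g = 1` (FIX). For `ρ ∈ R₀`,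
`ρ' = g ρ g⁻¹`: `s_ρ' = s_ρ`, `a ρ' = a g / s_ρ(a g)` (COB). `Ψ y` fixed by `ρ'`: `s_ρ y = a ρ' y`, i.e.
`s_ρ(a g y) = a g y`. Put `z = a g y`, `y = a (g⁻¹) z`. (3) `¬ Mov` means: every `w` is fixed by some
Sylow `r`-subgroup. -/
def SpecMOV : Prop :=
  ∀ (S : Sys) (u : S.A) (F : Type) [Field F] [Finite F] (c : Coord S.H S.at' u F) (r : ℕ),
    Large r →
      ((∃ g : S.H, g • u = u ∧ (∀ y, c.s g y = y) ∧ c.a g ≠ 1 ∧ c.a g ^ r = 1) →
        S.Mv r u ∧ ∀ (w : AddChar S.W ℂ), (∃ x ∈ S.at' u, w x ≠ 1) →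
          ∀ R : Subgroup S.H, SylIn r (MulAction.stabilizer S.H u) R →
            ∃ ρ ∈ R, ∃ x ∈ S.at' u, w (ρ • x) ≠ w x) ∧
      ∀ R₀ : Subgroup S.H, SylIn r (MulAction.stabilizer S.H u) R₀ → (∀ h ∈ R₀, c.a h = 1) →
        (∀ y, y ≠ 0 →
          (∃ R : Subgroup S.H, SylIn r (MulAction.stabilizer S.H u) R ∧
              ∀ ρ ∈ R, c.s ρ y = c.a ρ * y) →
            ∃ (g : S.H) (z : F), g • u = u ∧ (∀ y', c.s g y' = y') ∧ (∀ ρ ∈ R₀, c.s ρ z = z) ∧
              y = c.a g * z) ∧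
        (¬ S.Mv r u → ∀ y, y ≠ 0 →
          ∃ (g : S.H) (z : F), g • u = u ∧ (∀ y', c.s g y' = y') ∧ (∀ ρ ∈ R₀, c.s ρ z = z) ∧
            y = c.a g * z)

/-!
**CFA** [200 lines]: file CO/Cfa.lean, `theorem specCFA (hORN hCOB hFFA hFIX hMOV) : SpecCFA`
(`SpecCFA` is in Defs3).
PROOF. `r` of type (C), `u ∈ I_r`, coordinates `c`. `r` is not movable on `u`, so by MOV (1) and `hall`
there is a Sylow `r`-subgroup `R₀` of `H_u` (= of `H`, ORN) with `a = 1` on `R₀`. `s(R₀)` is a cyclic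
`r`-group (FFA (2)), not trivial (ORN (7) and COB (3)): let `σ = s_(ρ₀)`, `ρ₀ ∈ R₀`, be a generator, of
order `r^k`, `k > 0`; `z` is fixed by `s(R₀)` iff `σ z = z`. By MOV (3) every `x ≠ 0` is `a g * z`,
`g ∈ H_u`, `s_g = 1`, `σ z = z`. `N := {σ x / x : x ≠ 0}`; so `N = {σ t / t : t = a g, s_g = 1}`, in
`T := {a g : g ∈ H_u, s_g = 1}` (`σ t / t = a (ρ₀ g ρ₀⁻¹ g⁻¹)`).
`card`: FFA (3). `inf`: if `y = σ x / x` is fixed by `σ`, then `y^(r^k) = 1` by FFA (4) and `y ∈ T`, so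
`y = 1` by FIX (2) (an element `≠ 1` of order a power of `r` has a power of order `r`, also in `T`), i.e.
`σ x = x`. `dec`: FFA (5). `mod`: let `y = σ x / x ≠ 1`, `y^l = 1`. `σ y` is a power `y^b` of `y` (`y` generates the
unique subgroup of order `l` of the cyclic group `F^*`; `σ y` has the same order). `σ y ≠ y` by `inf`
(otherwise `y = 1`). `b^(r^k) = 1`, `b ≠ 1` in `(ZMod l)ˣ`: `r` divides `l - 1`.
`sub`: let `O' = {g ∈ H_u : s_g ∈ ⟨σ⟩, a g ∈ N}`: it is a subgroup (`N` is a subgroup of `F^*` stable under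
`σ`, COB). Every Sylow subgroup `R` is `g R₀ g⁻¹`, `s_g = 1` (FIX (1)), its elements have `s = σ^j`,
`a = x / σ^j x` with `x = a g`: in `N` (`σ^j x / x` is a product of elements `σ (σ^i x) / σ^i x`). So
`Or ≤ O'`, and for a commutator of two elements of `O'` `s = 1` and `a ∈ N` (`a` of a product and of an
inverse stay in `N` up to `⟨σ⟩`); so `D = ⁅Or, Or⁆ ≤ {s = 1, a ∈ N}`.
`onto`: let `n = σ x / x`. `x = n' z` with `n' ∈ N`, `σ z = z` (`dec`), so `n = σ n' / n'`; `n' = σ t / t`,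
`t = a g`, `s_g = 1`. `g₁ := ρ₀ g ρ₀⁻¹ g⁻¹ ∈ Or` (normal, contains `ρ₀`), `s_(g₁) = 1`, `a g₁ = σ t / t = n'`;
`d := ρ₀ g₁ ρ₀⁻¹ g₁⁻¹ ∈ D`, `a d = σ n' / n' = n`.
`syl`: `R = g R₀ g⁻¹`, `x := a g`; `ρ = g ρ' g⁻¹`: `s_ρ = s_ρ' = σ^j`, `a ρ = x / σ^j x`; take `ρ' = ρ₀`.
-/

/-- **TCA** [200 lines]. Group theoretic facts on primes `r`, `q` of type (C).
(1) elements of `D r` and `D q` commute; (2) `r ∤ |D r|`; (3) every prime divisor `l` of the order of an
element of `D r` is `1 mod r`; (4) `C_{D r}(R) = 1` for every Sylow `r`-subgroup `R`; (5),(6) an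
element of `D r` which fixes a non-zero point, or a character which is not trivial on the atom, acts
trivially on the atom; (7) `D r` acts non-trivially on the atoms of `I_r`, and (8) trivially
on the others; (9) `I_r` is not empty; (10) an atom of `I_r` has coordinates.
PROOF. An element of `H` acting trivially on all atoms is `1` (`top`, `faith`). (10) if `GV` holds for `u`
and `r` acts non-trivially on `u` then `r` is movable on `u` (every Sylow subgroup of `H_u` acts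
non-trivially by ORN (6),(7)). (1) on an atom with coordinates `d`, `e` act as multiplications (CFA
`sub`; or trivially if the atom is not in `I_r`, `I_q`), so `d e d⁻¹ e⁻¹` acts trivially on every atom
(an atom outside both `I_r`, `I_q`: both act trivially). (2),(3) let `d ∈ D r`, `d ≠ 1`, `d^l = 1`,
`l` prime: `d` acts on some `u ∈ I_r` as `a d = σ x / x ≠ 1`, `(a d)^l = 1`, so `r ∣ l - 1` (`mod`), in
particular `l ≠ r`. (4) `d` commutes with `ρ ∈ R`, `s_ρ = σ`, `a ρ = x / σ x` (`syl`): `a (ρ d) = a ρ σ(a d)`,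
`a (d ρ) = a d a ρ` so `σ (a d) = a d`, and `a d = σ x' / x'`, `inf` gives `a d = 1`. (5) `φ (d x) = a d φ x`.
(6) DUA (3),(4): `w = Ψ y` on the atom, `y ≠ 0`, `y = s_d y = a d y`. (7) `σ ≠ 1` (`ord`, `kpos`): there is
`x` with `σ x ≠ x`; `onto`. (8) definition. (9) a Sylow `r`-subgroup is non-trivial (SYL (h)), so some
element moves some point of `W`, hence acts non-trivially on some atom (it fixes all atoms and
the atoms generate `W`). -/
def SpecTCA : Prop :=
  ∀ (S : Sys) (r : ℕ), S.TC r →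
    (∀ q, S.TC q → ∀ d ∈ S.D r, ∀ e ∈ S.D q, d * e = e * d) ∧
    (¬ r ∣ Nat.card (S.D r)) ∧
    (∀ d ∈ S.D r, ∀ l, l.Prime → d ≠ 1 → d ^ l = 1 → r ∣ l - 1) ∧
    (∀ R : Subgroup S.H, SylIn r ⊤ R → ∀ d ∈ S.D r, (∀ ρ ∈ R, ρ * d = d * ρ) → d = 1) ∧
    (∀ d ∈ S.D r, ∀ u, ∀ x ∈ S.at' u, x ≠ 0 → d • x = x → S.Tr d u) ∧
    (∀ d ∈ S.D r, ∀ u, ∀ w : AddChar S.W ℂ, (∃ x ∈ S.at' u, w x ≠ 1) →
      (∀ x ∈ S.at' u, w (d • x) = w x) → S.Tr d u) ∧
    (∀ u, S.Act r u → ∃ d ∈ S.D r, ¬ S.Tr d u) ∧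
    (∀ u, ¬ S.Act r u → ∀ h ∈ Or S.H r, S.Tr h u) ∧
    (∃ u, S.Act r u) ∧
    (∀ u, S.Act r u → ∃ (F : Type) (_ : Field F) (_ : Finite F), Nonempty (Coord S.H S.at' u F))

/-- **CNJ** [120 lines]. `Or = D R` for every Sylow `r`-subgroup, and two Sylow `r`-subgroups of `H`
contained in `T` are conjugate by an element of `D r ∩ T`.
PROOF. `Or / D` is abelian, generated by the images of the Sylow `r`-subgroups, which are conjugate
under `Or` (ORN (8) with `T = ⊤`), so all images are equal: `Or = D R`. Let `g ∈ Or ∩ T` with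
`R' = g R g⁻¹` (ORN (8)), `g = d ρ`, `d ∈ D r`, `ρ ∈ R ≤ T`: `d = g ρ⁻¹ ∈ T` and `R' = d R d⁻¹`. -/
def SpecCNJ : Prop :=
  ∀ (S : Sys) (r : ℕ), S.TC r →
    (∀ R : Subgroup S.H, SylIn r ⊤ R → ∀ g ∈ Or S.H r, ∃ d ∈ S.D r, ∃ ρ ∈ R, g = d * ρ) ∧
    ∀ T R R' : Subgroup S.H, SylIn r ⊤ R → SylIn r ⊤ R' → R ≤ T → R' ≤ T →
      ∃ d ∈ S.D r, d ∈ T ∧ ∀ x, x ∈ R' ↔ d⁻¹ * x * d ∈ R

/-- **SEL** [200 lines] (pure). A finite abelian group `E` (a subgroup `E` of `H`), a finite set `I` of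
primes and for every `r ∈ I` a non-trivial subgroup `C r ≤ E` such that every prime divisor `l` of
the order of an element of `C r` satisfies `r ∣ l - 1`. Then some linear character `β` of `E` is
non-trivial on every `C r`.
PROOF. For `r ∈ I` choose `x_r ∈ C r` of prime order `l(r)`, `r ∣ l(r) - 1`. Induction on the finite set
`{l(r) : r ∈ I}` of primes, or directly: for a prime `l` let `E_l` be the `l`-primary part
(`CommGroup.primaryComponent`) and `π_l : E → E_l` the projection `x ↦ x^(m_l)`, a power map with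
`m_l = 1 mod |E_l|`, `m_l = 0 mod` the order of the complement. The number of `r ∈ I` with
`l(r) = l` is at most the number of prime divisors of `l - 1`, which is `< l`. The characters `χ` of
`E` with `χ (x_r) = 1` form a subgroup of index `l` of the dual (`χ ↦ χ(x_r)` is onto the
`l`-th roots of unity, since `x_r ≠ 1` is separated by a character:
`CommGroup.exists_apply_ne_one_of_hasEnoughRootsOfUnity`); fewer than `l` subgroups of index `l`
do not cover a finite group (counting: each has `|Ê|/l` elements). So for every `l` there is `χ_l` with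
`χ_l (x_r) ≠ 1` for all `r` with `l(r) = l`. Put `β = ∏_l χ_l ∘ π_l` (product over the primes dividing
`|E|`): `π_l (x_r) = x_r` if `l = l(r)` and `1` otherwise, so `β (x_r) = χ_(l(r)) (x_r) ≠ 1`. -/
def SpecSEL : Prop :=
  ∀ (E : Type) [CommGroup E] [Finite E] (I : Finset ℕ) (C : ℕ → Subgroup E),
    (∀ r ∈ I, r.Prime ∧ C r ≠ ⊥ ∧ ∀ x ∈ C r, x ≠ 1 → ∀ l, l.Prime → x ^ l = 1 → r ∣ l - 1) →
    ∃ β : E →* ℂˣ, ∀ r ∈ I, ∃ x ∈ C r, β x ≠ 1

/-- **BET** [250 lines]. Choice of `(E, β)` for a configuration `(λ, μ)`: everything which is not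
`Missed` is covered.
PROOF. `J := {h : Fixes λ μ h}` is a subgroup: if `h` fixes `μ i` then `h` maps the radical of
`B i (μ i)` in `cmp (inl i)` onto itself (`Bh`, `inv`); closure under products and inverses is
immediate. `DT := sSup {D r : r of type (C)}`: abelian (TCA (1)), normal in `H` (ORN (1)).
`E := DT ⊓ J`: abelian, in `J`, normalised by `J`. `I := {r of type (C) : D r ⊓ J ≠ ⊥}` is finite (prime
divisors of `|H|`). Apply SEL to `E` and `C r := D r ⊓ J` (condition: TCA (3)); `bet h := β h` for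
`h ∈ E`, `1` otherwise. Valid. Now let `r` be large, `r ∣ |H|`, not missed. If no Sylow
`r`-subgroup `R` is in `J` then `r` is covered by definition of `Cov`. Otherwise `r` is of type (C)
and some `d ∈ D r ⊓ J`, `d ≠ 1`: `r ∈ I`. Suppose `R` is a Sylow `r`-subgroup with `FixAll h` for all
`h ∈ R`; `R ≤ J`. Let `c ∈ C r`. All `ρ c ρ⁻¹` are in `C r` (`D r` normal, `R ≤ J`), they commute, and
`∏_{ρ ∈ R} ρ c ρ⁻¹` is centralised by `R`, so it is `1` by TCA (4). `β(ρ c ρ⁻¹) = β(c)`: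
`β(c)^|R| = 1`. Also `β(c)^|D r| = 1`, and `|D r|` is prime to `r` (TCA (2)), `|R|` a power of `r`: `β(c) = 1`.
This contradicts the choice of `β`. -/
def SpecBET : Prop :=
  ∀ (S : Sys) (lam : AddChar S.W ℂ) (mu : ∀ i, S.Z i),
    ∃ (E : Subgroup S.H) (bet : S.H → ℂ),
      (Cfg.mk lam mu E bet : Cfg S.H S.W S.Z).Valid S.cmp S.B ∧
      ∀ r, Large r → r ∣ Nat.card S.H → ¬ S.Missed lam mu r →
        (Cfg.mk lam mu E bet : Cfg S.H S.W S.Z).Cov S.cmp S.B r

/-- **SUB** [100 lines] (pure). A proper subgroup of the cyclic group `Fˣ` lies in the group of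
`l`-th powers for some prime `l` dividing its index.
PROOF. `Fˣ` is cyclic of order `n`, `Y` the subgroup of index `m > 1`, generated by `ζ^m`, `ζ` a
generator; `l` a prime divisor of `m`. -/
def SpecSUB : Prop :=
  ∀ (F : Type) [Field F] [Finite F] (Y : Subgroup Fˣ), Y ≠ ⊤ →
    ∃ l : ℕ, l.Prime ∧ l ∣ Y.index ∧ l ∣ Nat.card Fˣ ∧ ∀ y ∈ Y, ∃ z : Fˣ, y = z ^ l

/-- **GEN** [200 lines] (pure). A generic element of `Fˣ`: `I` a finite set of primes, for `r ∈ I` a
prime `l r` dividing `|Fˣ|` with `r ∣ l r - 1` and an element `t r`. There is `w ∈ Fˣ` which is not an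
`l`-th power for any prime `l` dividing `|Fˣ|`, and not in `t r * (l r)`-th powers for `r ∈ I`.
PROOF. `ζ` a generator of `Fˣ`, `t r = ζ^(a r)`; `n = |Fˣ|`. For every prime `l ∣ n` the number of
`r ∈ I` with `l r = l` is at most the number of prime divisors of `l - 1`, which is `< l - 1` if `l > 2` and
`0` if `l = 2`; so `1 + #{r} < l + 1`, more precisely at most `l - 1` residue classes mod `l` are
forbidden (the class `0` and the classes of the `a r`, `l r = l`), and there is an allowed class `b_l`.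
(Number of distinct prime divisors of `m ≥ 1` is `≤ m - 1`: they are in `{2, …, m}`.) CRT
(`Nat.chineseRemainderOfFinset` or `Ideal`/`ZMod` version) gives `k` with `k = b_l mod l` for all primes
`l ∣ n`. `w = ζ^k`. If `w = t r * z^l`, `l = l r`, then `k = a r mod l` (as `l ∣ n`), contradiction;
the same for `w = z^l`. -/
def SpecGEN : Prop :=
  ∀ (F : Type) [Field F] [Finite F] (I : Finset ℕ) (l : ℕ → ℕ) (t : ℕ → Fˣ),
    (∀ r ∈ I, r.Prime ∧ (l r).Prime ∧ l r ∣ Nat.card Fˣ ∧ r ∣ l r - 1) →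
    ∃ w : Fˣ, (∀ q, q.Prime → q ∣ Nat.card Fˣ → ∀ z : Fˣ, w ≠ z ^ q) ∧
      ∀ r ∈ I, ∀ z : Fˣ, w ≠ t r * z ^ l r

/-!
**STP** [250 lines]: file CO/Stp.lean, `theorem specSTP (hSYL hORN hCOB hDUA hMOV hCFA hTCA hCNJ hSUB
hGEN) : SpecSTP` (`SpecSTP` is in Defs3).
PROOF. If `GV u` holds: take its `w`. (ii) if `r` is movable on `u` then every Sylow `r`-subgroup of
`H_u` acts non-trivially on `at' u` (otherwise it fixes all characters), so `w` is moved. (iii) if `r` is
of type (C) and `u ∈ I_r` then `GV` makes `r` movable on `u` (ORN (6),(7)): contradiction.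
Otherwise coordinates `c`, field `F`, `Ψ` from DUA. Let `I` be the set of primes `r` of type (C),
`u ∈ I_r`, such that some Sylow `r`-subgroup `R_r` of `H` is in `T` and the set
`Y_r := {a d : d ∈ D r, d ∈ T}` (a subgroup of `N_r = {σ x / x}`) is not all of `N_r`, `(σ, k)` from CFA.
`R_r` acts as `x σ^j x⁻¹`, `x = x_r` (`syl`). The subgroup `Y_r Fix(σ)^*` of `Fˣ` is proper: if
`σ x / x ∉ Y_r` were `y z`, `y ∈ Y_r ⊆ N_r`, `σ z = z`, then `z = (σ x / x) / y ∈ N_r ∩ Fix` so `z = 1` by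
`inf`. SUB gives a prime `l r` dividing its index, all its elements are `l r`-th powers. Since
`Fˣ = N_r Fix^*`, the index divides `|N_r|`... (`|Fˣ| = |N_r| |Fix^*|`, and `|Y_r Fix^*| = |Y_r| |Fix^*|`), so `l r`
divides `|N_r|`, there is an element of order `l r` in `N_r` (Cauchy), `r ∣ l r - 1` by `mod`. GEN with
`t r := x_r⁻¹` gives `y ∈ Fˣ`. `w := Ψ y`. (i) non-trivial (DUA (2)). (ii) let `r` be large, movable on `u`,
`R` Sylow in `H_u`, fixing `w`: by `hall` and MOV (1) (which says that every non-trivial `w` is moved in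
the first case) there is `R₀` with `a = 1`, MOV (2): `y = a g z`, in the subgroup `T₀ := {a g z :
s_g = 1, s_ρ z = z (ρ ∈ R₀)}` of `Fˣ` (DUA (4) translates `R fixes w`). If `T₀ ≠ ⊤` then SUB: `y` is an
`l`-th power, contradiction; if `T₀ = ⊤` then `r` is not movable on `u`: let `w'` be a character witnessing
`Mov`; `w' = Ψ y'` on the atom; if `y' = 0` it is fixed by all; `y' = a g z`: then `g⁻¹ R₀ g`... precisely
the Sylow subgroup `g⁻¹ R₀ g` fixes `Ψ y'`: for `ρ' = g⁻¹ ρ g`, `a ρ' = s_ρ(a g) / a g`, `s_ρ' y' =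
s_ρ(a g) z = a ρ' y'`. (iii) `r` of type (C), `u ∈ I_r`, `R ≤ T` Sylow fixing `w`, and suppose the conclusion fails:
then `Y_r ≠ N_r` (by `sub`, `onto` and COB (4): `d`, `d'` act in the same way iff `a d = a d'`), so `r ∈ I`;
by CNJ `R = d R_r d⁻¹`, `d ∈ D r ∩ T`. `R` contains `ρ' = d ρ d⁻¹`, `s_ρ = σ`, `a ρ = x / σ x`;
`a ρ' = a d a ρ / σ(a d)`; `Ψ y` is fixed: `σ y = a ρ' y`, so `x a d y` is fixed by `σ`:
`y ∈ x⁻¹ (a d)⁻¹ Fix^* ⊆ t r * (Y_r Fix^*)`, so `y = t r * z^(l r)`, contradiction.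
-/

end Pool.Agent.Lib.MPbe1941.CO
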